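import Pool.Agent.Helper16.AZ.Stmts

/-! # Approximation by eigenvectors -/

set_option autoImplicit false

namespace Pool.Agent.Helper16.AZ

open Finset Filter MeasureTheory Topology
open scoped ComplexConjugate InnerProductSpace ENNReal
open Pool.Agent.Helper16.MD (MS PB Am RW Rich)
open UnitAddTorus (mFourier)

/-- density of continuous functions -/
theorem dee_dense (r d : ℕ) (w : LL r d) (ε : ℝ) (hε : 0 < ε) :
    ∃ (c : T r → E d) (f : LL r d), Continuous c ∧ (∀ᵐ θ ∂(mm r), (f : T r → E d) θ = c θ) ∧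
      ‖w - f‖ ≤ ε := by
  have hwm : MemLp (w : T r → E d) 2 (mm r) := Lp.memLp w
  have hε2 : ENNReal.ofReal ε ≠ 0 := by
    rw [Ne, ENNReal.ofReal_eq_zero, not_le]
    exact hε
  obtain ⟨g, hg, hgm⟩ := hwm.exists_boundedContinuous_eLpNorm_sub_le (by norm_num) hε2
  refine ⟨g, hgm.toLp _, g.continuous, hgm.coeFn_toLp, ?_⟩
  rw [Lp.norm_def]
  have h3 : eLpNorm ((w - hgm.toLp _ : LL r d) : T r → E d) 2 (mm r)
      = eLpNorm ((w : T r → E d) - (g : T r → E d)) 2 (mm r) := by
    refine eLpNorm_congr_ae ?_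
    filter_upwards [Lp.coeFn_sub w (hgm.toLp _), hgm.coeFn_toLp] with θ h3 h5
    rw [h3, Pi.sub_apply, Pi.sub_apply, h5]
  rw [h3]
  exact ENNReal.toReal_le_of_le_ofReal hε.le hg

theorem dee_mul {r d : ℕ} (X Y : LL r d →L[ℂ] LL r d) (f : LL r d) : (X * Y) f = X (Y f) := rfl

/-- powers of a unitary preserve the norm -/
theorem dee_norm {r d : ℕ} {W : LL r d →L[ℂ] LL r d}
    (hW : W ∈ unitary (LL r d →L[ℂ] LL r d)) (h : ℕ) (f : LL r d) : ‖(W ^ h) f‖ = ‖f‖ := by
  have h1 : ∀ f : LL r d, ‖W f‖ = ‖f‖ := by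
    intro f
    have h2 : ContinuousLinearMap.adjoint W * W = 1 := by
      have := (Unitary.mem_iff.1 hW).1
      rwa [ContinuousLinearMap.star_eq_adjoint] at this
    have h3 : (ContinuousLinearMap.adjoint W * W) f = f := by
      rw [h2]
      rfl
    have h4 : inner ℂ ((ContinuousLinearMap.adjoint W * W) f) f = inner ℂ (W f) (W f) := by
      rw [dee_mul, ContinuousLinearMap.adjoint_inner_left]
    rw [h3, inner_self_eq_norm_sq_to_K, inner_self_eq_norm_sq_to_K] at h4
    have h5 : ‖f‖ ^ 2 = ‖W f‖ ^ 2 := by exact_mod_cast h4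
    exact ((pow_left_inj₀ (norm_nonneg _) (norm_nonneg _) two_ne_zero).1 h5).symm
  induction h with
  | zero => rfl
  | succ h ih => rw [pow_succ', dee_mul, h1, ih]

theorem dee_pow {r d : ℕ} {W : LL r d →L[ℂ] LL r d} {e : LL r d} {z : ℂ} (he : W e = z • e)
    (h : ℕ) : (W ^ h) e = z ^ h • e := by
  induction h with
  | zero => simp
  | succ h ih =>
    rw [pow_succ', dee_mul, ih, map_smul, he, smul_smul, pow_succ]

/-- Approximation by eigenvectors. -/
theorem st_DEE : ST_DEE := by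
  intro r d W f ε hW hf hε
  -- a finite sum of eigenvectors
  obtain ⟨s, hs, hfs⟩ : ∃ s ∈ Submodule.span ℂ {η : LL r d | Eig W η}, ‖f - s‖ ≤ ε / 2 := by
    have hf' : f ∈ closure ((Submodule.span ℂ {η : LL r d | Eig W η} : Submodule ℂ (LL r d)) :
        Set (LL r d)) := hf
    obtain ⟨s, hs, hd⟩ := Metric.mem_closure_iff.1 hf' (ε / 2) (half_pos hε)
    exact ⟨s, hs, by
      rw [dist_eq_norm] at hd
      exact hd.le⟩
  obtain ⟨K, c, η, hsum⟩ := Submodule.mem_span_set'.1 hs
  -- the eigenvalues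
  have hz : ∀ i : Fin K, ∃ z : ℂ, ‖z‖ = 1 ∧ W ((η i : LL r d)) = z • (η i : LL r d) :=
    fun i => (η i).2
  choose z0 hz0 hz1 using hz
  let z : ℕ → ℂ := fun k => if h : k < K then z0 ⟨k, h⟩ else 1
  let e : ℕ → LL r d := fun k => if h : k < K then c ⟨k, h⟩ • (η ⟨k, h⟩ : LL r d) else 0
  have hzn : ∀ k, ‖z k‖ = 1 := by
    intro k
    by_cases h : k < K
    · simp only [z, dif_pos h]
      exact hz0 _
    · simp only [z, dif_neg h, norm_one]
  have he : ∀ k, W (e k) = z k • e k := by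
    intro k
    by_cases h : k < K
    · simp only [z, e, dif_pos h]
      rw [map_smul, hz1, smul_comm]
    · simp only [z, e, dif_neg h, map_zero, smul_zero]
  have hse : ∑ k ∈ range K, e k = s := by
    rw [Finset.sum_range, ← hsum]
    refine Finset.sum_congr rfl fun i _ => ?_
    simp only [e, dif_pos i.2]
  have hK : (0 : ℝ) < 2 * (K + 1) := by positivity
  choose g g' hg hg' hd using fun k => dee_dense r d (e k) (ε / (2 * (K + 1))) (by positivity)
  refine ⟨K, z, g, g', hzn, hg, hg', fun h => ?_⟩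
  have h1 : (W ^ h) f - ∑ k ∈ range K, (z k ^ h) • g' k =
      (W ^ h) (f - s) + ∑ k ∈ range K, (z k ^ h) • (e k - g' k) := by
    have h2 : (W ^ h) s = ∑ k ∈ range K, (z k ^ h) • e k := by
      rw [← hse, map_sum]
      exact Finset.sum_congr rfl fun k _ => dee_pow (he k) h
    rw [map_sub, h2]
    simp only [smul_sub, Finset.sum_sub_distrib]
    abel
  rw [h1]
  have h3 : ‖∑ k ∈ range K, (z k ^ h) • (e k - g' k)‖ ≤ ε / 2 := by
    refine (norm_sum_le _ _).trans ?_
    have h4 : ∀ k ∈ range K, ‖(z k ^ h) • (e k - g' k)‖ ≤ ε / (2 * (K + 1)) := by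
      intro k _
      rw [norm_smul, norm_pow, hzn, one_pow, one_mul]
      exact hd k
    refine (Finset.sum_le_sum h4).trans ?_
    rw [Finset.sum_const, card_range, nsmul_eq_mul, ← mul_div_assoc, div_le_div_iff₀ hK two_pos]
    nlinarith
  refine (norm_add_le _ _).trans ?_
  rw [dee_norm hW]
  linarith

end Pool.Agent.Helper16.AZ
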